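import Mathlib

open Set Metric Filter Topology

namespace Pool.Agent.Y767.GE

/-- The mesh at distance `r` from the base point. -/
noncomputable def mesh (A r : ℝ) : ℝ := A / 4 / (1 + (r + 3 / 2) ^ 2)

lemma mesh_pos {A : ℝ} (hA : 0 < A) (r : ℝ) : 0 < mesh A r := by
  unfold mesh; positivity

lemma mesh_anti {A : ℝ} (hA : 0 < A) {r s : ℝ} (h0 : 0 ≤ r) (h : r ≤ s) : mesh A s ≤ mesh A r := by
  unfold mesh
  apply div_le_div_of_nonneg_left (by positivity) (by positivity)
  nlinarith

/-- the slack -/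
noncomputable def slack (A u : ℝ) : ℝ := A / 4 / (1 + (|u| + 1 / 2) ^ 2)

lemma slack_pos {A : ℝ} (hA : 0 < A) (u : ℝ) : 0 < slack A u := by
  unfold slack; positivity

lemma slack_le {A : ℝ} (hA : 0 < A) (hA1 : A ≤ 1) (u : ℝ) : slack A u ≤ 1 / 4 := by
  unfold slack
  rw [div_le_iff₀ (by positivity)]
  nlinarith [sq_nonneg (|u| + 1 / 2)]

lemma mesh_le_slack {A : ℝ} (hA : 0 < A) {r u : ℝ} (h : |u| ≤ r + 1) :
    mesh A r ≤ slack A u := by
  unfold mesh slack
  apply div_le_div_of_nonneg_left (by positivity) (by positivity)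
  have h0 := abs_nonneg u
  nlinarith

lemma arctan_step (u : ℝ) {s : ℝ} (hs : 1 / 2 ≤ s) :
    1 / 2 / (1 + (|u| + 1 / 2) ^ 2) ≤ Real.arctan (u + s) - Real.arctan u := by
  have h1 : Real.arctan (u + 1 / 2) ≤ Real.arctan (u + s) :=
    Real.arctan_strictMono.monotone (by linarith)
  have h2 : 1 / 2 / (1 + (|u| + 1 / 2) ^ 2) ≤ Real.arctan (u + 1 / 2) - Real.arctan u := by
    obtain ⟨c, hc, hd⟩ := exists_deriv_eq_slope Real.arctan (show u < u + 1 / 2 by linarith)
      Real.continuous_arctan.continuousOn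
      (Real.differentiable_arctan.differentiableOn)
    rw [Real.deriv_arctan] at hd
    have hd2 : 1 / (1 + c ^ 2) =
        (Real.arctan (u + 1 / 2) - Real.arctan u) / (u + 1 / 2 - u) := hd
    have h3 : |c| ≤ |u| + 1 / 2 := by
      have hc1 := hc.1
      have hc2 := hc.2
      rw [abs_le]
      constructor
      · linarith [neg_abs_le u]
      · linarith [le_abs_self u]
    have h4 : c ^ 2 ≤ (|u| + 1 / 2) ^ 2 := by
      rw [← sq_abs c]
      exact pow_le_pow_left₀ (abs_nonneg _) h3 2
    have h5 : Real.arctan (u + 1 / 2) - Real.arctan u = 1 / 2 * (1 / (1 + c ^ 2)) := by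
      rw [hd2]; ring
    rw [h5, div_eq_mul_one_div (1 / 2 : ℝ)]
    apply mul_le_mul_of_nonneg_left _ (by norm_num)
    apply one_div_le_one_div_of_le (by positivity)
    linarith
  linarith

variable {X : Type*} [MetricSpace X]

/-- a locally finite set that is `mesh A (dist o p)`-dense at `p` -/
theorem exists_net [ProperSpace X] (o : X) {A : ℝ} (hA : 0 < A) :
    ∃ V : Set X, (∀ R : ℝ, {v ∈ V | dist o v ≤ R}.Finite) ∧
      ∀ p : X, ∃ v ∈ V, dist p v ≤ mesh A (dist o p) := by
  have hK : ∀ n : ℕ, IsCompact {p : X | (n : ℝ) ≤ dist o p ∧ dist o p ≤ n + 1} := by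
    intro n
    have h1 : {p : X | (n : ℝ) ≤ dist o p ∧ dist o p ≤ n + 1} =
        closedBall o (n + 1) ∩ {p | (n : ℝ) ≤ dist o p} := by
      ext p
      simp only [mem_setOf_eq, mem_inter_iff, mem_closedBall, dist_comm p o]
      exact and_comm
    rw [h1]
    exact (isCompact_closedBall o _).inter_right
      (isClosed_le continuous_const (continuous_const.dist continuous_id))
  choose F hFs hFf hFc using fun n : ℕ =>
    (hK n).finite_cover_balls (mesh_pos hA ((n : ℝ) + 1))
  refine ⟨⋃ n, F n, ?_, ?_⟩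
  · intro R
    have hsub : {v ∈ ⋃ n, F n | dist o v ≤ R} ⊆ ⋃ n ∈ Iic ⌊R⌋₊, F n := by
      rintro v ⟨hv, hR⟩
      obtain ⟨n, hn⟩ := mem_iUnion.1 hv
      have h1 := (hFs n hn).1
      refine mem_iUnion₂.2 ⟨n, ?_, hn⟩
      exact Nat.le_floor (h1.trans hR)
    exact ((finite_Iic _).biUnion fun n _ => hFf n).subset hsub
  · intro p
    set n := ⌊dist o p⌋₊ with hn
    have h1 : (n : ℝ) ≤ dist o p := Nat.floor_le dist_nonneg
    have h2 : dist o p < n + 1 := Nat.lt_floor_add_one _
    obtain ⟨v, hv, hd⟩ := mem_iUnion₂.1 (hFc n ⟨h1, h2.le⟩)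
    refine ⟨v, mem_iUnion.2 ⟨n, hv⟩, ?_⟩
    rw [mem_ball] at hd
    exact hd.le.trans (mesh_anti hA dist_nonneg h2.le)

/-- points of `V` at distance at most one are joined -/
def gr (V : Set X) : SimpleGraph V where
  Adj v w := v ≠ w ∧ dist (v : X) w ≤ 1
  symm := ⟨fun v w h => ⟨h.1.symm, by rw [dist_comm]; exact h.2⟩⟩
  loopless := ⟨fun v h => h.1 rfl⟩

lemma le_length {V : Set X} {v w : V} (p : (gr V).Walk v w) : dist (v : X) w ≤ p.length := by
  induction p with
  | nil => simp
  | @cons u v w h p ih =>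
    rw [SimpleGraph.Walk.length_cons]
    push_cast
    have h1 : dist (u : X) v ≤ 1 := h.2
    linarith [dist_triangle (u : X) v w]

theorem walk {V : Set X} {o : X} {A : ℝ} (hA : 0 < A) (hA1 : A ≤ 1)
    (hgeo : ∀ x y : X, ∀ t : ℝ, 0 ≤ t → t ≤ dist x y → ∃ z, dist x z = t ∧ dist z y = dist x y - t)
    (hV : ∀ p : X, ∃ v ∈ V, dist p v ≤ mesh A (dist o p)) (a w : V) :
    ∀ (k : ℕ) (p : X) (v : V), dist (a : X) p + dist p w = dist (a : X) w →
      dist p w ≤ k / 2 → dist p v ≤ mesh A (dist o p) →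
      ∃ q : (gr V).Walk v w, (q.length : ℝ) ≤ dist p w + 1 +
        A * (Real.pi / 2 - Real.arctan (dist (a : X) p - dist o a)) := by
  have hone : ∀ (p : X) (v : V), dist p w + dist p v ≤ 1 → ∃ q : (gr V).Walk v w,
      (q.length : ℝ) ≤ dist p w + 1 +
        A * (Real.pi / 2 - Real.arctan (dist (a : X) p - dist o a)) := by
    intro p v h
    have hpos : 0 ≤ A * (Real.pi / 2 - Real.arctan (dist (a : X) p - dist o a)) :=
      mul_nonneg hA.le (by linarith [Real.arctan_lt_pi_div_two (dist (a : X) p - dist o a)])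
    by_cases hvw : v = w
    · subst hvw
      refine ⟨SimpleGraph.Walk.nil, ?_⟩
      simp only [SimpleGraph.Walk.length_nil, Nat.cast_zero]
      linarith [dist_nonneg (x := p) (y := (v : X))]
    · have hadj : (gr V).Adj v w := by
        refine ⟨hvw, ?_⟩
        linarith [dist_triangle (v : X) p w, dist_comm (v : X) p]
      refine ⟨SimpleGraph.Walk.cons hadj SimpleGraph.Walk.nil, ?_⟩
      simp only [SimpleGraph.Walk.length_cons, SimpleGraph.Walk.length_nil, zero_add, Nat.cast_one]
      linarith [dist_nonneg (x := p) (y := (w : X))]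
  intro k
  induction k with
  | zero =>
    intro p v h1 h2 h3
    apply hone p v
    have h4 : mesh A (dist o p) ≤ 1 := by
      have h5 := mesh_le_slack hA (r := dist o p) (u := 0) (by
        rw [abs_zero]; linarith [dist_nonneg (x := o) (y := p)])
      linarith [slack_le hA hA1 0]
    simp only [Nat.cast_zero, zero_div] at h2
    linarith
  | succ k ih =>
    intro p v h1 h2 h3
    set u : ℝ := dist (a : X) p - dist o a with hu
    set s : ℝ := 1 - 2 * slack A u with hs
    have hs1 : 1 / 2 ≤ s := by rw [hs]; linarith [slack_le hA hA1 u]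
    have hs2 : s ≤ 1 := by rw [hs]; linarith [slack_pos hA u]
    have hru : |u| ≤ dist o p := by
      rw [hu, abs_le]
      constructor
      · linarith [dist_triangle o p (a : X), dist_comm p (a : X), dist_nonneg (x := p) (y := (a : X))]
      · linarith [dist_triangle (a : X) o p, dist_comm (a : X) o]
    have hep : mesh A (dist o p) ≤ slack A u := mesh_le_slack hA (by linarith)
    by_cases hlast : dist p w ≤ s
    · apply hone p v
      linarith [slack_pos hA u]
    · push Not at hlast
      obtain ⟨p', hp1, hp2⟩ := hgeo p w s (by linarith) hlast.le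
      obtain ⟨v', hv', hd'⟩ := hV p'
      have ha : dist (a : X) p' = dist (a : X) p + s := by
        apply le_antisymm
        · linarith [dist_triangle (a : X) p p']
        · linarith [dist_triangle (a : X) p' w]
      have h4 : dist (a : X) p' + dist p' w = dist (a : X) w := by rw [ha, hp2]; linarith
      have h5 : dist p' w ≤ k / 2 := by
        rw [hp2]; push_cast at h2; linarith
      obtain ⟨q, hq⟩ := ih p' ⟨v', hv'⟩ h4 h5 hd'
      have hr' : |u| ≤ dist o p' + 1 := by
        linarith [dist_triangle o p' p, dist_comm p' p]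
      have hep' : mesh A (dist o p') ≤ slack A u := mesh_le_slack hA hr'
      have hd : dist (v : X) v' ≤ 1 := by
        have h6 := dist_triangle4 (v : X) p p' v'
        have h7 : dist (v : X) p = dist p v := dist_comm _ _
        linarith
      have hat := arctan_step u hs1
      have hkey : 2 * slack A u ≤ A * (Real.arctan (u + s) - Real.arctan u) := by
        have : 2 * slack A u = A * (1 / 2 / (1 + (|u| + 1 / 2) ^ 2)) := by
          unfold slack; ring
        rw [this]
        exact mul_le_mul_of_nonneg_left hat hA.le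
      have hu' : dist (a : X) p' - dist o a = u + s := by rw [ha, hu]; ring
      rw [hu'] at hq
      by_cases hvv : v = (⟨v', hv'⟩ : V)
      · refine ⟨q.copy hvv.symm rfl, ?_⟩
        rw [SimpleGraph.Walk.length_copy]
        linarith
      · have hadj : (gr V).Adj v ⟨v', hv'⟩ := ⟨hvv, hd⟩
        refine ⟨SimpleGraph.Walk.cons hadj q, ?_⟩
        rw [SimpleGraph.Walk.length_cons]
        push_cast
        linarith

theorem main [ProperSpace X] [Nonempty X]
    (hgeo : ∀ x y : X, ∀ t : ℝ, 0 ≤ t → t ≤ dist x y → ∃ z, dist x z = t ∧ dist z y = dist x y - t)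
    {ε : ℝ} (hε : 0 < ε) :
    ∃ V : Set X, (∀ R : ℝ, ∀ x : X, {v ∈ V | dist x v ≤ R}.Finite) ∧ (∀ z : X, ∃ v ∈ V, dist z v < ε) ∧
      (gr V).Connected ∧ ∀ v w : V, dist (v : X) w ≤ (gr V).dist v w ∧
        ((gr V).dist v w : ℝ) < dist (v : X) w + 1 + ε := by
  obtain ⟨o⟩ := ‹Nonempty X›
  set A : ℝ := min 1 (ε / 4) with hAdef
  have hA : 0 < A := lt_min one_pos (by positivity)
  have hA1 : A ≤ 1 := min_le_left _ _
  have hAε : A ≤ ε / 4 := min_le_right _ _
  obtain ⟨V, hfin, hV⟩ := exists_net o hA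
  have hw : ∀ v w : V, ∃ q : (gr V).Walk v w, (q.length : ℝ) < dist (v : X) w + 1 + ε := by
    intro v w
    obtain ⟨k, hk⟩ := exists_nat_ge (2 * dist (v : X) w)
    obtain ⟨q, hq⟩ := walk hA hA1 hgeo hV v w k v v (by rw [dist_self, zero_add]) (by linarith)
      (by rw [dist_self]; exact (mesh_pos hA _).le)
    refine ⟨q, hq.trans_lt ?_⟩
    have h1 : Real.pi / 2 - Real.arctan (dist (v : X) v - dist o v) < Real.pi := by
      linarith [Real.neg_pi_div_two_lt_arctan (dist (v : X) v - dist o v)]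
    have h2 : A * (Real.pi / 2 - Real.arctan (dist (v : X) v - dist o v)) < A * Real.pi :=
      mul_lt_mul_of_pos_left h1 hA
    nlinarith [Real.pi_lt_four, Real.pi_pos]
  refine ⟨V, ?_, ?_, ?_, ?_⟩
  · intro R x
    refine (hfin (dist o x + R)).subset ?_
    rintro v ⟨hv, hR⟩
    exact ⟨hv, by linarith [dist_triangle o x v]⟩
  · intro z
    obtain ⟨v, hv, hd⟩ := hV z
    refine ⟨v, hv, hd.trans_lt ?_⟩
    have : mesh A (dist o z) < A := by
      unfold mesh
      rw [div_lt_iff₀ (by positivity)]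
      nlinarith [sq_nonneg (dist o z + 3 / 2)]
    linarith
  · obtain ⟨v0, hv0, -⟩ := hV o
    have : Nonempty V := ⟨⟨v0, hv0⟩⟩
    exact ⟨fun v w => (hw v w).elim fun q _ => q.reachable⟩
  · intro v w
    obtain ⟨q, hq⟩ := hw v w
    constructor
    · obtain ⟨q', hq'⟩ := (q.reachable).exists_walk_length_eq_dist
      rw [← hq']
      exact le_length q'
    · exact lt_of_le_of_lt (by exact_mod_cast SimpleGraph.dist_le q) hq

end Pool.Agent.Y767.GE
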